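import Pool.Agent.Helper74.HG.GoalsG

/-!
The solutions of a nonzero integer polynomial modulo `p^m` have density zero.
-/

namespace Pool.Agent.Helper10.HG.PAZ

open MvPolynomial Pool.Agent.Helper74.HG

theorem dvd_of_mul {p : ℕ} (hp : p.Prime) (b : ℤ) : ∀ (r m : ℕ) (a : ℤ),
    ¬ (p : ℤ) ^ r ∣ a → (p : ℤ) ^ m ∣ a * b → (p : ℤ) ^ (m - r) ∣ b := by
  intro r
  induction r with
  | zero =>
    intro m a ha
    exact absurd (by simp) ha
  | succ r ih =>
    intro m a ha h
    by_cases hpa : (p : ℤ) ∣ a
    · obtain ⟨a', rfl⟩ := hpa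
      rcases m with _ | m
      · simp
      · have h1 : ¬ (p : ℤ) ^ r ∣ a' := fun hh => ha (by
          rw [pow_succ, mul_comm]
          exact mul_dvd_mul_left _ hh)
        have hp0 : (p : ℤ) ≠ 0 := by exact_mod_cast hp.ne_zero
        have h2 : (p : ℤ) ^ m ∣ a' * b := by
          rw [pow_succ, mul_comm ((p : ℤ) ^ m), mul_assoc] at h
          exact (mul_dvd_mul_iff_left hp0).1 h
        have h3 := ih m a' h1 h2
        rwa [Nat.add_sub_add_right]
    · have hpp : Prime (p : ℤ) := Nat.prime_iff_prime_int.1 hp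
      have h2 : (p : ℤ) ^ m ∣ b := hpp.pow_dvd_of_dvd_mul_left m hpa h
      exact (pow_dvd_pow _ (Nat.sub_le _ _)).trans h2

theorem lead {p : ℕ} (hp : p.Prime) (r : ℕ) : ∀ (d : ℕ) (g : Polynomial ℤ) (m : ℕ)
    (s : Finset ℤ), g.natDegree ≤ d → s.card = d + 1 →
    (∀ x ∈ s, ∀ y ∈ s, x ≠ y → ¬ (p : ℤ) ^ r ∣ x - y) →
    (∀ x ∈ s, (p : ℤ) ^ m ∣ g.eval x) → (p : ℤ) ^ (m - d * r) ∣ g.coeff d := by
  intro d
  induction d with
  | zero =>
    intro g m s hg hs _ h
    obtain ⟨t, ht⟩ : s.Nonempty := Finset.card_pos.1 (by omega)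
    have h1 := h t ht
    rw [Polynomial.eq_C_of_natDegree_le_zero hg, Polynomial.eval_C] at h1
    simpa using h1
  | succ d ih =>
    intro g m s hg hs hd h
    obtain ⟨t, ht⟩ : s.Nonempty := Finset.card_pos.1 (by omega)
    set q := g /ₘ (Polynomial.X - Polynomial.C t) with hq
    have hmon : (Polynomial.X - Polynomial.C t).Monic := Polynomial.monic_X_sub_C t
    have hgq : g = Polynomial.C (g.eval t) + (Polynomial.X - Polynomial.C t) * q := by
      conv_lhs => rw [← Polynomial.modByMonic_add_div g (Polynomial.X - Polynomial.C t)]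
      rw [Polynomial.modByMonic_X_sub_C_eq_C_eval]
    have hqd : q.natDegree ≤ d := by
      rw [hq, Polynomial.natDegree_divByMonic _ hmon, Polynomial.natDegree_X_sub_C]
      omega
    have hco : g.coeff (d + 1) = q.coeff d := by
      have h1 : g.coeff (d + 1) =
          (Polynomial.C (g.eval t) + (Polynomial.X - Polynomial.C t) * q).coeff (d + 1) := by
        rw [← hgq]
      rw [h1, Polynomial.coeff_add, Polynomial.coeff_C_succ, sub_mul, Polynomial.coeff_sub,
        Polynomial.coeff_X_mul, Polynomial.coeff_C_mul,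
        Polynomial.coeff_eq_zero_of_natDegree_lt (show q.natDegree < d + 1 by omega)]
      ring
    have h2 : (p : ℤ) ^ (m - r - d * r) ∣ q.coeff d := by
      refine ih q (m - r) (s.erase t) hqd (by rw [Finset.card_erase_of_mem ht, hs]; rfl) ?_ ?_
      · intro x hx y hy
        exact hd x (Finset.mem_of_mem_erase hx) y (Finset.mem_of_mem_erase hy)
      · intro x hx
        have hxs := Finset.mem_of_mem_erase hx
        have hxt := Finset.ne_of_mem_erase hx
        refine dvd_of_mul hp _ r m (x - t) (hd x hxs t ht hxt) ?_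
        have h3 : g.eval x = g.eval t + (x - t) * q.eval x := by
          have h4 : g.eval x =
              (Polynomial.C (g.eval t) + (Polynomial.X - Polynomial.C t) * q).eval x := by
            rw [← hgq]
          rw [h4]
          simp
        have h5 : (x - t) * q.eval x = g.eval x - g.eval t := by rw [h3]; ring
        rw [h5]
        exact dvd_sub (h x hxs) (h t ht)
    rw [hco]
    have e : m - (d + 1) * r = m - r - d * r := by
      rw [Nat.sub_sub]
      congr 1
      ring
    rw [e]
    exact h2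

/-- the number of zeros modulo `p^m` of a polynomial in one variable -/
theorem count {p : ℕ} (hp : p.Prime) (r d m k : ℕ) (g : Polynomial ℤ) (hg : g.natDegree ≤ d)
    (hk : ¬ (p : ℤ) ^ k ∣ g.coeff d) (hm : k + d * r ≤ m) (hrm : r ≤ m) :
    ((Finset.range (p ^ m)).filter fun t : ℕ => (p : ℤ) ^ m ∣ g.eval (t : ℤ)).card ≤
      p ^ (m - r) * d := by
  classical
  set S := (Finset.range (p ^ m)).filter fun t : ℕ => (p : ℤ) ^ m ∣ g.eval (t : ℤ) with hS
  have hp0 : 0 < p ^ r := pow_pos hp.pos _
  have h1 : S.card ≤ p ^ (m - r) * (S.image fun t => t % p ^ r).card := by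
    refine Finset.card_le_mul_card_image S (p ^ (m - r)) ?_
    intro a _
    refine (Finset.card_le_card_of_injOn (t := Finset.range (p ^ (m - r)))
      (fun t => t / p ^ r) ?_ ?_).trans (by rw [Finset.card_range])
    · intro t ht
      rw [Finset.mem_coe, Finset.mem_filter, hS, Finset.mem_filter, Finset.mem_range] at ht
      rw [Finset.mem_coe, Finset.mem_range]
      refine Nat.div_lt_of_lt_mul ?_
      rw [← pow_add, Nat.add_sub_cancel' hrm]
      exact ht.1.1
    · intro t ht t' ht' he
      rw [Finset.mem_coe, Finset.mem_filter] at ht ht'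
      have e1 := ht.2
      have e2 := ht'.2
      rw [← Nat.div_add_mod t (p ^ r), ← Nat.div_add_mod t' (p ^ r), e1, e2]
      simp only at he
      rw [he]
  refine h1.trans (Nat.mul_le_mul_left _ ?_)
  by_contra hcon
  push Not at hcon
  obtain ⟨U, hU, hUc⟩ := Finset.exists_subset_card_eq (show d + 1 ≤
    (S.image fun t => t % p ^ r).card by omega)
  -- choose representatives
  have hch : ∀ a ∈ U, ∃ t ∈ S, t % p ^ r = a := by
    intro a ha
    obtain ⟨t, ht, he⟩ := Finset.mem_image.1 (hU ha)
    exact ⟨t, ht, he⟩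
  choose! f hf hf' using hch
  have hinj : Set.InjOn (fun a => (f a : ℤ)) U := by
    intro a ha b hb he
    have he' : (f a : ℤ) = (f b : ℤ) := he
    have h2 : f a = f b := by exact_mod_cast he'
    rw [← hf' a ha, ← hf' b hb, h2]
  have h3 := lead hp r d g m (U.image fun a => (f a : ℤ)) hg
    (by rw [Finset.card_image_of_injOn hinj, hUc]) (by
      intro x hx y hy hxy hdvd
      obtain ⟨a, ha, rfl⟩ := Finset.mem_image.1 hx
      obtain ⟨b, hb, rfl⟩ := Finset.mem_image.1 hy
      apply hxy
      have h4 : ((f b : ℕ) : ℤ) ≡ (f a : ℤ) [ZMOD ((p ^ r : ℕ) : ℤ)] := by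
        rw [Int.modEq_iff_dvd]
        exact_mod_cast hdvd
      have h5 : f b ≡ f a [MOD p ^ r] := Int.natCast_modEq_iff.1 h4
      have h6 : f b % p ^ r = f a % p ^ r := h5
      rw [hf' a ha, hf' b hb] at h6
      rw [h6]) (by
      intro x hx
      obtain ⟨a, ha, rfl⟩ := Finset.mem_image.1 hx
      have h4 := hf a ha
      rw [hS, Finset.mem_filter] at h4
      exact h4.2)
  exact hk ((pow_dvd_pow _ (by omega)).trans h3)

section lines

variable {σ : Type} [Fintype σ]

/-- the restriction of `f` to a line -/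
noncomputable def line (f : MvPolynomial σ ℤ) (x v : σ → ℤ) : Polynomial ℤ :=
  aeval (fun i => Polynomial.C (x i) + Polynomial.C (v i) * Polynomial.X) f

theorem natDegree_lin (a b : ℤ) :
    (Polynomial.C a + Polynomial.C b * Polynomial.X).natDegree ≤ 1 := by
  compute_degree

theorem coeff_lin (a b : ℤ) :
    (Polynomial.C a + Polynomial.C b * Polynomial.X).coeff 1 = b := by
  rw [Polynomial.coeff_add, Polynomial.coeff_C, Polynomial.coeff_C_mul, Polynomial.coeff_X_one]
  simp

omit [Fintype σ] in
theorem prod_lin (x v : σ → ℤ) (u : σ →₀ ℕ) (s : Finset σ) :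
    (∏ i ∈ s, (Polynomial.C (x i) + Polynomial.C (v i) * Polynomial.X) ^ u i).natDegree ≤
      ∑ i ∈ s, u i ∧
    (∏ i ∈ s, (Polynomial.C (x i) + Polynomial.C (v i) * Polynomial.X) ^ u i).coeff
      (∑ i ∈ s, u i) = ∏ i ∈ s, v i ^ u i := by
  classical
  induction s using Finset.induction_on with
  | empty => simp
  | insert a s ha ih =>
    rw [Finset.prod_insert ha, Finset.sum_insert ha, Finset.prod_insert ha]
    have h1 : ((Polynomial.C (x a) + Polynomial.C (v a) * Polynomial.X) ^ u a).natDegree ≤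
        u a := by
      have := Polynomial.natDegree_pow_le_of_le (u a) (natDegree_lin (x a) (v a))
      simpa using this
    have h2 : ((Polynomial.C (x a) + Polynomial.C (v a) * Polynomial.X) ^ u a).coeff (u a) =
        v a ^ u a := by
      have := Polynomial.coeff_pow_of_natDegree_le (m := u a) (natDegree_lin (x a) (v a))
      rw [mul_one, coeff_lin] at this
      exact this
    refine ⟨Polynomial.natDegree_mul_le_of_le h1 ih.1, ?_⟩
    rw [Polynomial.coeff_mul_add_eq_of_natDegree_le h1 ih.1, h2, ih.2]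

theorem line_deg (f : MvPolynomial σ ℤ) (x v : σ → ℤ) :
    (line f x v).natDegree ≤ f.totalDegree ∧
    (line f x v).coeff f.totalDegree = eval v (homogeneousComponent f.totalDegree f) := by
  classical
  have hl : line f x v = ∑ u ∈ f.support, Polynomial.C (coeff u f) *
      ∏ i, (Polynomial.C (x i) + Polynomial.C (v i) * Polynomial.X) ^ u i := by
    rw [line, aeval_def, eval₂_eq']
    rfl
  have hdeg : ∀ u ∈ f.support, ∑ i, u i ≤ f.totalDegree := by
    intro u hu
    have := le_totalDegree hu
    rwa [Finsupp.sum_fintype _ _ (fun _ => rfl)] at this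
  constructor
  · rw [hl]
    refine Polynomial.natDegree_sum_le_of_forall_le _ _ ?_
    intro u hu
    exact (Polynomial.natDegree_C_mul_le _ _).trans
      (((prod_lin x v u Finset.univ).1).trans (hdeg u hu))
  · rw [hl, Polynomial.finsetSum_coeff, homogeneousComponent_apply, map_sum,
      Finset.sum_filter]
    refine Finset.sum_congr rfl fun u hu => ?_
    rw [Polynomial.coeff_C_mul]
    have hud : u.degree = ∑ i, u i := by
      rw [Finsupp.degree_eq_sum]
    split_ifs with h
    · rw [eval_monomial, Finsupp.prod_fintype _ _ (fun _ => pow_zero _), ← h, hud,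
        (prod_lin x v u Finset.univ).2]
    · rw [Polynomial.coeff_eq_zero_of_natDegree_lt, mul_zero]
      refine lt_of_le_of_lt (prod_lin x v u Finset.univ).1 (lt_of_le_of_ne (hdeg u hu) ?_)
      rw [← hud]
      exact h

theorem exists_dir (f : MvPolynomial σ ℤ) (hf : f ≠ 0) :
    ∃ v : σ → ℤ, eval v (homogeneousComponent f.totalDegree f) ≠ 0 := by
  by_contra hcon
  push Not at hcon
  have h0 : homogeneousComponent f.totalDegree f = 0 :=
    MvPolynomial.funext fun v => by rw [hcon v, map_zero]
  obtain ⟨u, hu, hdu⟩ : ∃ u ∈ f.support, u.degree = f.totalDegree := by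
    have hne : f.support.Nonempty := support_nonempty.2 hf
    obtain ⟨u, hu, he⟩ := Finset.exists_mem_eq_sup f.support hne
      (fun s => s.sum fun _ e => e)
    refine ⟨u, hu, ?_⟩
    rw [totalDegree, he, Finsupp.degree_eq_sum, Finsupp.sum_fintype _ _ (fun _ => rfl)]
  have h1 : coeff u (homogeneousComponent f.totalDegree f) = coeff u f := by
    rw [coeff_homogeneousComponent, if_pos hdu]
  rw [h0, coeff_zero] at h1
  exact (mem_support_iff.1 hu) h1.symm

omit [Fintype σ] in
/-- the value on the line modulo `p^m` -/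
theorem line_eval (f : MvPolynomial σ ℤ) (x v : σ → ℤ) (n : ℕ) (t : ℤ) :
    (((line f x v).eval t : ℤ) : ZMod n) =
      aeval (fun i => ((x i : ZMod n)) + (t : ZMod n) * (v i : ZMod n)) f := by
  have h1 : ((line f x v).eval t) = aeval (fun i => x i + v i * t) f := by
    have : (Polynomial.evalRingHom t) (line f x v) = aeval (fun i => x i + v i * t) f := by
      rw [line, aeval_def, aeval_def, hom_eval₂]
      congr 1
      · exact RingHom.ext_int _ _
      · funext i
        simp
    simpa using this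
  rw [h1, aeval_def, aeval_def]
  have h2 := hom_eval₂ f (algebraMap ℤ ℤ) (Int.castRingHom (ZMod n)) (fun i => x i + v i * t)
  rw [eq_intCast] at h2
  rw [h2]
  congr 1
  funext i
  simp [mul_comm]

theorem sol_le (f : MvPolynomial σ ℤ) (p : ℕ) [hp : Fact p.Prime] (v : σ → ℤ) (k r m : ℕ)
    (hk : ¬ (p : ℤ) ^ k ∣ eval v (homogeneousComponent f.totalDegree f))
    (hm : k + f.totalDegree * r ≤ m) (hrm : r ≤ m) :
    sol f p m * p ^ m ≤ p ^ (Fintype.card σ * m) * (p ^ (m - r) * f.totalDegree) := by
  classical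
  have : NeZero (p ^ m) := ⟨pow_ne_zero _ hp.out.ne_zero⟩
  have hsol : sol f p m = (Finset.univ.filter fun x : σ → ZMod (p ^ m) => aeval x f = 0).card := by
    rw [sol, ← Set.ncard_coe_finset]
    congr 1
    ext x
    simp
  -- double counting
  have h1 : ∑ x : σ → ZMod (p ^ m), (Finset.univ.filter fun t : ZMod (p ^ m) =>
      aeval (fun i => x i + t * (v i : ZMod (p ^ m))) f = 0).card = sol f p m * p ^ m := by
    simp_rw [Finset.card_filter]
    rw [Finset.sum_comm]
    have h2 : ∀ t : ZMod (p ^ m), ∑ x : σ → ZMod (p ^ m),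
        (if aeval (fun i => x i + t * (v i : ZMod (p ^ m))) f = 0 then 1 else 0) =
        sol f p m := by
      intro t
      rw [hsol, Finset.card_filter]
      refine Fintype.sum_equiv (Equiv.addRight (fun i => t * (v i : ZMod (p ^ m)))) _ _ ?_
      intro x
      rfl
    rw [Finset.sum_congr rfl fun t _ => h2 t, Finset.sum_const, Finset.card_univ, ZMod.card,
      smul_eq_mul, mul_comm]
  rw [← h1]
  have h3 : ∀ x : σ → ZMod (p ^ m), (Finset.univ.filter fun t : ZMod (p ^ m) =>
      aeval (fun i => x i + t * (v i : ZMod (p ^ m))) f = 0).card ≤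
      p ^ (m - r) * f.totalDegree := by
    intro x
    obtain ⟨y, hy⟩ : ∃ y : σ → ℤ, ∀ i, (y i : ZMod (p ^ m)) = x i :=
      ⟨fun i => (x i).val, fun i => by simp⟩
    have hl := line_deg f y v
    refine le_trans ?_ (count hp.out r f.totalDegree m k (line f y v) hl.1
      (by rw [hl.2]; exact hk) hm hrm)
    refine Finset.card_le_card_of_injOn (fun t : ZMod (p ^ m) => t.val) ?_ ?_
    · intro t ht
      rw [Finset.mem_coe, Finset.mem_filter] at ht
      rw [Finset.mem_coe, Finset.mem_filter, Finset.mem_range]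
      refine ⟨ZMod.val_lt t, ?_⟩
      have h4 := line_eval f y v (p ^ m) (t.val : ℤ)
      have h5 : (((t.val : ℕ) : ℤ) : ZMod (p ^ m)) = t := by simp
      rw [h5] at h4
      simp_rw [hy] at h4
      rw [ht.2] at h4
      have h6 := (ZMod.intCast_zmod_eq_zero_iff_dvd _ _).1 h4
      exact_mod_cast h6
    · intro a _ b _ hab
      have hab' : a.val = b.val := by exact_mod_cast hab
      exact ZMod.val_injective _ hab'
  refine (Finset.sum_le_sum fun x _ => h3 x).trans ?_
  rw [Finset.sum_const, Finset.card_univ, Fintype.card_fun, ZMod.card, smul_eq_mul, ← pow_mul,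
    mul_comm m]

end lines

theorem t : Pool.Agent.Helper74.HG.PAZ := by
  intro σ _ f p hp hf
  obtain ⟨v, hv⟩ := exists_dir f hf
  set c := eval v (homogeneousComponent f.totalDegree f) with hc
  obtain ⟨k, hk⟩ : ∃ k : ℕ, ¬ (p : ℤ) ^ k ∣ c := by
    have hfin : FiniteMultiplicity (p : ℤ) c := by
      rw [Int.finiteMultiplicity_iff]
      refine ⟨?_, hv⟩
      rw [Int.natAbs_natCast]
      exact hp.out.ne_one
    obtain ⟨n, hn⟩ := hfin
    exact ⟨n + 1, hn⟩
  set d := f.totalDegree with hd
  have hp1 : (1 : ℝ) < p := by exact_mod_cast hp.out.one_lt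
  have hp0 : (0 : ℝ) < p := by linarith
  rw [Metric.tendsto_atTop]
  intro ε hε
  obtain ⟨r, hr⟩ : ∃ r : ℕ, (d : ℝ) / (p : ℝ) ^ r < ε := by
    have h1 : Filter.Tendsto (fun r : ℕ => (d : ℝ) / (p : ℝ) ^ r) Filter.atTop (nhds 0) :=
      Filter.Tendsto.const_div_atTop (tendsto_pow_atTop_atTop_of_one_lt hp1) _
    exact ((h1.eventually (gt_mem_nhds hε)).exists)
  refine ⟨k + d * r + r, fun m hm => ?_⟩
  have h1 := sol_le f p v k r m hk (by rw [← hd]; exact (Nat.le_add_right _ _).trans hm) ((Nat.le_add_left _ _).trans hm)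
  have h2 : (sol f p m : ℝ) * (p : ℝ) ^ m ≤
      (p : ℝ) ^ (Fintype.card σ * m) * ((p : ℝ) ^ (m - r) * d) := by
    exact_mod_cast h1
  rw [Real.dist_eq, sub_zero, abs_of_nonneg (by positivity)]
  refine lt_of_le_of_lt ?_ hr
  rw [div_le_div_iff₀ (by positivity) (by positivity)]
  have h3 : (p : ℝ) ^ m = (p : ℝ) ^ (m - r) * (p : ℝ) ^ r := by
    rw [← pow_add, Nat.sub_add_cancel (by omega)]
  have h4 : (0 : ℝ) < (p : ℝ) ^ (m - r) := by positivity
  rw [h3] at h2
  nlinarith [h2, h4]

end Pool.Agent.Helper10.HG.PAZ
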